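import Pool.Agent.Helper93.CPQ.V3
import Pool.Agent.Helper59.CPS.V
import Pool.Agent.Helper60.CP.Stm5

/-!
# The volume bounds for the octonionic exponents (parts 5V and 6V)
-/

set_option autoImplicit false

open Real Set MeasureTheory
open scoped ContDiff

namespace Pool.Agent.Helper4.CPO

open Pool.Agent.Helper60.CP
open Pool.Agent.Helper93.CPQ (Rg Good Rg_measurable ind_integrable layer_hom vol_gen κ3 good3 Rg3 le_KK1)
open Pool.Agent.Helper60.CP.V (KK_cont KK_nonneg le_KK inner_reg)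
open Pool.Agent.Helper59.CPS (inner_dsk)
open Pool.Agent.H206R2.Rot2.TI (SC SC_one SC_left beta_id)

/-- The upper constant for `a = 6`, `b = 7`. -/
theorem const_six_seven : 2 * ((∫ x in (0 : ℝ)..1, √(1 - x ^ 2) * x ^ 7) * SC 6 (7 + 3)) =
    π / 14336 := by
  have hid := beta_id 6 7
  have hB : (∫ x in (0 : ℝ)..1, √(1 - x ^ 2) * x ^ 7) =
      (1 / (((7 : ℕ) : ℝ) + 2)) * ∫ x in (0 : ℝ)..(π / 2), Real.sin x ^ 7 :=
    Pool.Agent.H206R2.Rot.TE.B_eq 7
  rw [← hB] at hid
  set K := (∫ x in (0 : ℝ)..1, √(1 - x ^ 2) * x ^ 7) * SC 6 (7 + 3) with hK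
  have h1 : SC 1 8 = 1 / 9 := by
    rw [SC_one]
    norm_num
  have h3 : SC 3 8 = 2 / 99 := by
    have h := SC_left 1 8
    rw [h1] at h
    norm_num at h
    linarith
  have h5 : SC 5 8 = 8 / 1287 := by
    have h := SC_left 3 8
    norm_num at h
    rw [h3] at h
    linarith
  have h7 : SC 7 8 = 16 / 6435 := by
    have h := SC_left 5 8
    norm_num at h
    rw [h5] at h
    linarith
  rw [show (6 + 1 : ℕ) = 7 from rfl, show (7 + 1 : ℕ) = 8 from rfl, h7] at hid
  norm_num [Nat.factorial] at hid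
  linarith

/-- the integral over the region of `ℝP`-type -/
lemma Reg_int6 {s : ℝ} (hs : 0 < s) :
    ∫ c in Rg κ3 s, c.1 ^ 6 * c.2 ^ 7 = 1 / 2365440 * s ^ (6 + 7 + 2) := by
  rw [← integral_indicator (Rg_measurable good3 s)]
  have hi := ind_integrable good3 s 6 7
  rw [Measure.volume_eq_prod] at hi ⊢
  rw [integral_prod _ hi]
  have hin : ∀ x : ℝ, ∫ y, (Rg κ3 s).indicator (fun c : ℝ × ℝ => c.1 ^ 6 * c.2 ^ 7) (x, y) =
      (Ioo 0 (s / 2)).indicator
        (fun x => x ^ 6 * (s ^ 2 - 2 * s * x) ^ 4 / 8) x := by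
    intro x
    have e : (fun y : ℝ => (Rg κ3 s).indicator (fun c : ℝ × ℝ => c.1 ^ 6 * c.2 ^ 7) (x, y)) =
        fun y => x ^ 6 * (Reg s).indicator (fun c : ℝ × ℝ => c.2 ^ (2 * 3 + 1)) (x, y) := by
      funext y
      rw [Rg3]
      by_cases h : (x, y) ∈ Reg s
      · rw [indicator_of_mem h, indicator_of_mem h]
      · rw [indicator_of_notMem h, indicator_of_notMem h, mul_zero]
    rw [e, integral_const_mul, inner_reg hs 3]
    by_cases hx : x ∈ Ioo 0 (s / 2)
    · rw [indicator_of_mem hx, indicator_of_mem hx]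
      push_cast
      ring
    · rw [indicator_of_notMem hx, indicator_of_notMem hx, mul_zero]
  simp_rw [hin]
  rw [integral_indicator measurableSet_Ioo, ← integral_Ioc_eq_integral_Ioo,
    ← intervalIntegral.integral_of_le (by positivity), intervalIntegral.integral_div]
  have hd : ∀ x : ℝ, HasDerivAt (fun x : ℝ =>
      s ^ 8 / 7 * x ^ 7 - s ^ 7 * x ^ 8 + 8 / 3 * s ^ 6 * x ^ 9 - 16 / 5 * s ^ 5 * x ^ 10 +
        16 / 11 * s ^ 4 * x ^ 11) (x ^ 6 * (s ^ 2 - 2 * s * x) ^ 4) x := by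
    intro x
    have h7 := (hasDerivAt_pow 7 x).const_mul (s ^ 8 / 7)
    have h8 := (hasDerivAt_pow 8 x).const_mul (s ^ 7)
    have h9 := (hasDerivAt_pow 9 x).const_mul (8 / 3 * s ^ 6)
    have h10 := (hasDerivAt_pow 10 x).const_mul (16 / 5 * s ^ 5)
    have h11 := (hasDerivAt_pow 11 x).const_mul (16 / 11 * s ^ 4)
    refine ((((h7.sub h8).add h9).sub h10).add h11).congr_deriv ?_
    push_cast
    norm_num
    ring
  rw [intervalIntegral.integral_eq_sub_of_hasDerivAt (fun x _ => hd x)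
    (Continuous.intervalIntegrable (by fun_prop) _ _)]
  ring

theorem t_5V : S5_V := by
  intro L R f h hL hR hfc hhc hfpos hhpos hbig hA
  have key := vol_gen good3 6 7 hL hR hfc hhc hfpos hhpos hbig
    (fun c hc => by
      have h1 := hA c hc
      have h2 : R - κ3 c = R - c.1 - KK c := by
        unfold κ3
        ring
      rw [h2]
      exact h1)
  rw [layer_hom good3 hR 6 7 (fun s hs => Reg_int6 hs), ← mul_assoc, const_six_seven] at key
  set I := ∫ r in (0 : ℝ)..L, f r ^ (6 + 1) * h r ^ (7 + 1) with hI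
  have hπ := Real.pi_pos
  have h1 : π * (R ^ 16 / 37847040) < π * (I / 14336) := by
    calc _ = π * (1 / 2365440 * R ^ (6 + 7 + 3) / (((6 : ℕ) : ℝ) + ((7 : ℕ) : ℝ) + 3)) := by
          push_cast
          ring
      _ < π / 14336 * I := key
      _ = _ := by ring
  have h2 := lt_of_mul_lt_mul_left h1 hπ.le
  have h3 : R ^ 16 < 2640 * I := by linarith
  exact h3

/-! ### The sphere -/

lemma good4 : Good KK where
  cont := KK_cont
  le1 := fun c _ _ => le_KK1 c
  le2 := fun c _ _ => le_KK c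

lemma Dsk_int6 {s : ℝ} (hs : 0 < s) :
    ∫ c in Rg KK s, c.1 ^ 6 * c.2 ^ 7 = 16 / 45045 * s ^ (6 + 7 + 2) := by
  rw [← integral_indicator (Rg_measurable good4 s)]
  have hi := ind_integrable good4 s 6 7
  rw [Measure.volume_eq_prod] at hi ⊢
  rw [integral_prod _ hi]
  have hin : ∀ x : ℝ, ∫ y, (Rg KK s).indicator (fun c : ℝ × ℝ => c.1 ^ 6 * c.2 ^ 7) (x, y) =
      (Ioo 0 s).indicator (fun x => x ^ 6 * (s ^ 2 - x ^ 2) ^ 4 / 8) x := by
    intro x
    have e : (fun y : ℝ => (Rg KK s).indicator (fun c : ℝ × ℝ => c.1 ^ 6 * c.2 ^ 7) (x, y)) =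
        fun y => x ^ 6 * (Dsk s).indicator (fun c : ℝ × ℝ => c.2 ^ (2 * 3 + 1)) (x, y) := by
      funext y
      by_cases h : (x, y) ∈ Dsk s
      · rw [indicator_of_mem h, indicator_of_mem (show (x, y) ∈ Rg KK s from h)]
      · rw [indicator_of_notMem h, indicator_of_notMem (show (x, y) ∉ Rg KK s from h), mul_zero]
    rw [e, integral_const_mul, inner_dsk hs 3]
    by_cases hx : x ∈ Ioo 0 s
    · rw [indicator_of_mem hx, indicator_of_mem hx]
      push_cast
      ring
    · rw [indicator_of_notMem hx, indicator_of_notMem hx, mul_zero]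
  simp_rw [hin]
  rw [integral_indicator measurableSet_Ioo, ← integral_Ioc_eq_integral_Ioo,
    ← intervalIntegral.integral_of_le hs.le, intervalIntegral.integral_div]
  have hd : ∀ x : ℝ, HasDerivAt (fun x : ℝ =>
      s ^ 8 / 7 * x ^ 7 - 4 / 9 * s ^ 6 * x ^ 9 + 6 / 11 * s ^ 4 * x ^ 11 - 4 / 13 * s ^ 2 * x ^ 13 +
        1 / 15 * x ^ 15) (x ^ 6 * (s ^ 2 - x ^ 2) ^ 4) x := by
    intro x
    have h7 := (hasDerivAt_pow 7 x).const_mul (s ^ 8 / 7)
    have h9 := (hasDerivAt_pow 9 x).const_mul (4 / 9 * s ^ 6)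
    have h11 := (hasDerivAt_pow 11 x).const_mul (6 / 11 * s ^ 4)
    have h13 := (hasDerivAt_pow 13 x).const_mul (4 / 13 * s ^ 2)
    have h15 := (hasDerivAt_pow 15 x).const_mul (1 / 15)
    refine ((((h7.sub h9).add h11).sub h13).add h15).congr_deriv ?_
    push_cast
    norm_num
    ring
  rw [intervalIntegral.integral_eq_sub_of_hasDerivAt (fun x _ => hd x)
    (Continuous.intervalIntegrable (by fun_prop) _ _)]
  ring

lemma sin15 : ∫ t in (0 : ℝ)..π, Real.sin t ^ 15 = 28672 / 45045 := by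
  have h := integral_sin_pow_odd 7
  rw [show 2 * 7 + 1 = 15 from rfl] at h
  rw [h]
  norm_num [Finset.prod_range_succ]

theorem t_6V : S6_V := by
  intro L R f h hL hR hfc hhc hfpos hhpos hbig hA
  have key := vol_gen good4 6 7 (lam := 2 * π) hL hR hfc hhc hfpos hhpos hbig
    (fun c hc => hA c hc)
  rw [layer_hom good4 hR 6 7 (fun s hs => Dsk_int6 hs), ← mul_assoc, const_six_seven] at key
  rw [sin15]
  set I := ∫ r in (0 : ℝ)..L, f r ^ (6 + 1) * h r ^ (7 + 1) with hI
  have hπ := Real.pi_pos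
  have h1 : π * (2 * (R ^ 16 / 45045)) < π * (I / 14336) := by
    calc _ = 2 * π * (16 / 45045 * R ^ (6 + 7 + 3) / (((6 : ℕ) : ℝ) + ((7 : ℕ) : ℝ) + 3)) := by
          push_cast
          ring
      _ < π / 14336 * I := key
      _ = _ := by ring
  have h2 := lt_of_mul_lt_mul_left h1 hπ.le
  have h3 : R ^ 16 * (28672 / 45045) < I := by linarith
  exact h3

end Pool.Agent.Helper4.CPO
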